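import Pool.Agent.Run7.h567.GO.Iface

set_option autoImplicit false

/-!
# Project GO, piece PT: the points of the algebra form a group
-/

namespace Run7.h300.GO

open Run7.h567.GO Matrix Polynomial

variable {Γ : Type} [Group Γ] {E : Type} [Field E]

/-- composition with a map of `Γ` -/
def pre (E : Type) [Field E] (θ : Γ → Γ) : (Γ → E) →ₐ[E] (Γ → E) :=
  AlgHom.pi fun h => Pi.evalAlgHom E (fun _ : Γ => E) (θ h)

theorem pre_apply (θ : Γ → Γ) (f : Γ → E) (h : Γ) : pre E θ f h = f (θ h) := rfl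

/-- the generators -/
def gens {k : ℕ} (τ : MRep Γ E k) : Set (Γ → E) :=
  Set.range (fun p : Fin k × Fin k => ent τ p.1 p.2) ∪
    Set.range (fun p : Fin k × Fin k => ent' τ p.1 p.2)

theorem big_eq {n m : ℕ} (ρ : MRep Γ E n) (σ : MRep Γ E m) :
    bigAlg ρ σ = Algebra.adjoin E (gens ρ ∪ gens σ) :=
  (Algebra.adjoin_union _ _).symm

theorem gen_ind {A A' : Subalgebra E (Γ → E)} {S : Set (Γ → E)} (hA : A = Algebra.adjoin E S)
    (P : A →ₐ[E] (Γ → E)) (h : ∀ s, s ∈ S → ∀ hs : s ∈ A, P ⟨s, hs⟩ ∈ A') (f : A) : P f ∈ A' := by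
  subst hA
  obtain ⟨f, hf⟩ := f
  have key : ∀ f ∈ Algebra.adjoin E S, ∃ hf : f ∈ Algebra.adjoin E S, P ⟨f, hf⟩ ∈ A' := by
    intro f hf
    induction hf using Algebra.adjoin_induction with
    | mem x hx => exact ⟨Algebra.subset_adjoin hx, h x hx _⟩
    | algebraMap r =>
      refine ⟨Subalgebra.algebraMap_mem _ r, ?_⟩
      have : P ⟨algebraMap E (Γ → E) r, Subalgebra.algebraMap_mem _ r⟩ =
          algebraMap E (Γ → E) r := P.commutes r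
      rw [this]
      exact Subalgebra.algebraMap_mem _ r
    | add x y hx hy h1 h2 =>
      obtain ⟨h1, h3⟩ := h1
      obtain ⟨h2, h4⟩ := h2
      refine ⟨add_mem h1 h2, ?_⟩
      have : P ⟨x + y, add_mem h1 h2⟩ = P ⟨x, h1⟩ + P ⟨y, h2⟩ :=
        map_add P ⟨x, h1⟩ ⟨y, h2⟩
      rw [this]
      exact add_mem h3 h4
    | mul x y hx hy h1 h2 =>
      obtain ⟨h1, h3⟩ := h1
      obtain ⟨h2, h4⟩ := h2
      refine ⟨mul_mem h1 h2, ?_⟩
      have : P ⟨x * y, mul_mem h1 h2⟩ = P ⟨x, h1⟩ * P ⟨y, h2⟩ :=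
        map_mul P ⟨x, h1⟩ ⟨y, h2⟩
      rw [this]
      exact mul_mem h3 h4
  exact (key f hf).2

/-- `A` contains the entries of `τ` and of its inverse -/
def Has {k : ℕ} (A : Subalgebra E (Γ → E)) (τ : MRep Γ E k) : Prop :=
  (∀ i j, ent τ i j ∈ A) ∧ ∀ i j, ent' τ i j ∈ A

theorem has_left {n m : ℕ} (ρ : MRep Γ E n) (σ : MRep Γ E m) : Has (bigAlg ρ σ) ρ := by
  rw [big_eq]
  exact ⟨fun i j => Algebra.subset_adjoin (Or.inl (Or.inl ⟨(i, j), rfl⟩)),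
    fun i j => Algebra.subset_adjoin (Or.inl (Or.inr ⟨(i, j), rfl⟩))⟩

theorem has_right {n m : ℕ} (ρ : MRep Γ E n) (σ : MRep Γ E m) : Has (bigAlg ρ σ) σ := by
  rw [big_eq]
  exact ⟨fun i j => Algebra.subset_adjoin (Or.inr (Or.inl ⟨(i, j), rfl⟩)),
    fun i j => Algebra.subset_adjoin (Or.inr (Or.inr ⟨(i, j), rfl⟩))⟩

theorem pre_mul_ent {k : ℕ} (τ : MRep Γ E k) (g : Γ) (i j : Fin k) :
    pre E (fun h => g * h) (ent τ i j) = ∑ l, (τ g i l) • ent τ l j := by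
  funext h
  rw [pre_apply]
  simp only [ent, map_mul, Matrix.mul_apply, Finset.sum_apply, Pi.smul_apply, smul_eq_mul]

theorem pre_mul_ent' {k : ℕ} (τ : MRep Γ E k) (g : Γ) (i j : Fin k) :
    pre E (fun h => g * h) (ent' τ i j) = ∑ l, (τ g⁻¹ l j) • ent' τ i l := by
  funext h
  rw [pre_apply]
  simp only [ent', _root_.mul_inv_rev, map_mul, Matrix.mul_apply, Finset.sum_apply, Pi.smul_apply,
    smul_eq_mul]
  exact Finset.sum_congr rfl fun l _ => mul_comm _ _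

theorem gens_cases {k : ℕ} {τ : MRep Γ E k} {s : Γ → E} (hs : s ∈ gens τ) :
    (∃ i j, s = ent τ i j) ∨ ∃ i j, s = ent' τ i j := by
  rcases hs with ⟨p, rfl⟩ | ⟨p, rfl⟩
  · exact Or.inl ⟨p.1, p.2, rfl⟩
  · exact Or.inr ⟨p.1, p.2, rfl⟩

section main

variable {n m : ℕ} (ρ : MRep Γ E n) (σ : MRep Γ E m)

theorem trans_mem (g : Γ) (f : bigAlg ρ σ) :
    ((pre E (fun h => g * h)).comp (bigAlg ρ σ).val) f ∈ bigAlg ρ σ := by
  refine gen_ind (big_eq ρ σ) _ ?_ f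
  intro s hs hsA
  change pre E (fun h => g * h) s ∈ bigAlg ρ σ
  have hL := has_left ρ σ
  have hR := has_right ρ σ
  rcases hs with hs | hs <;> rcases gens_cases hs with ⟨i, j, rfl⟩ | ⟨i, j, rfl⟩
  · rw [pre_mul_ent]
    exact Subalgebra.sum_mem _ fun l _ => Subalgebra.smul_mem _ (hL.1 _ _) _
  · rw [pre_mul_ent']
    exact Subalgebra.sum_mem _ fun l _ => Subalgebra.smul_mem _ (hL.2 _ _) _
  · rw [pre_mul_ent]
    exact Subalgebra.sum_mem _ fun l _ => Subalgebra.smul_mem _ (hR.1 _ _) _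
  · rw [pre_mul_ent']
    exact Subalgebra.sum_mem _ fun l _ => Subalgebra.smul_mem _ (hR.2 _ _) _

/-- left translation on the algebra -/
def lam (g : Γ) : bigAlg ρ σ →ₐ[E] bigAlg ρ σ :=
  ((pre E (fun h => g * h)).comp (bigAlg ρ σ).val).codRestrict (bigAlg ρ σ) (trans_mem ρ σ g)

theorem lam_val (g : Γ) (f : bigAlg ρ σ) : (lam ρ σ g f : Γ → E) = pre E (fun h => g * h) f := rfl

/-- the homomorphism given by a point -/
def Psi (ψ : bigAlg ρ σ →ₐ[E] E) : bigAlg ρ σ →ₐ[E] (Γ → E) :=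
  AlgHom.pi fun g => ψ.comp (lam ρ σ g)

theorem Psi_apply (ψ : bigAlg ρ σ →ₐ[E] E) (f : bigAlg ρ σ) (g : Γ) :
    Psi ρ σ ψ f g = ψ (lam ρ σ g f) := rfl

theorem Psi_ent (ψ : bigAlg ρ σ →ₐ[E] E) {k : ℕ} {τ : MRep Γ E k} (hτ : Has (bigAlg ρ σ) τ)
    (i j : Fin k) (h : ent τ i j ∈ bigAlg ρ σ) :
    Psi ρ σ ψ ⟨ent τ i j, h⟩ = ∑ l, (ψ ⟨ent τ l j, hτ.1 l j⟩) • ent τ i l := by
  funext g
  rw [Psi_apply]
  have : lam ρ σ g ⟨ent τ i j, h⟩ = ∑ l, (τ g i l) • (⟨ent τ l j, hτ.1 l j⟩ : bigAlg ρ σ) := by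
    apply Subtype.ext
    rw [lam_val]
    push_cast
    exact pre_mul_ent τ g i j
  rw [this, map_sum]
  simp only [map_smul, Finset.sum_apply, Pi.smul_apply, smul_eq_mul]
  exact Finset.sum_congr rfl fun l _ => mul_comm _ _

theorem Psi_ent' (ψ : bigAlg ρ σ →ₐ[E] E) {k : ℕ} {τ : MRep Γ E k} (hτ : Has (bigAlg ρ σ) τ)
    (i j : Fin k) (h : ent' τ i j ∈ bigAlg ρ σ) :
    Psi ρ σ ψ ⟨ent' τ i j, h⟩ = ∑ l, (ψ ⟨ent' τ i l, hτ.2 i l⟩) • ent' τ l j := by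
  funext g
  rw [Psi_apply]
  have : lam ρ σ g ⟨ent' τ i j, h⟩ =
      ∑ l, (τ g⁻¹ l j) • (⟨ent' τ i l, hτ.2 i l⟩ : bigAlg ρ σ) := by
    apply Subtype.ext
    rw [lam_val]
    push_cast
    exact pre_mul_ent' τ g i j
  rw [this, map_sum]
  simp only [map_smul, Finset.sum_apply, Pi.smul_apply, smul_eq_mul]
  exact Finset.sum_congr rfl fun l _ => mul_comm _ _

theorem Psi_mem (ψ : bigAlg ρ σ →ₐ[E] E) (f : bigAlg ρ σ) : Psi ρ σ ψ f ∈ bigAlg ρ σ := by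
  refine gen_ind (big_eq ρ σ) _ ?_ f
  intro s hs hsA
  have hL := has_left ρ σ
  have hR := has_right ρ σ
  rcases hs with hs | hs <;> rcases gens_cases hs with ⟨i, j, rfl⟩ | ⟨i, j, rfl⟩
  · rw [Psi_ent ρ σ ψ hL]
    exact Subalgebra.sum_mem _ fun l _ => Subalgebra.smul_mem _ (hL.1 _ _) _
  · rw [Psi_ent' ρ σ ψ hL]
    exact Subalgebra.sum_mem _ fun l _ => Subalgebra.smul_mem _ (hL.2 _ _) _
  · rw [Psi_ent ρ σ ψ hR]
    exact Subalgebra.sum_mem _ fun l _ => Subalgebra.smul_mem _ (hR.1 _ _) _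
  · rw [Psi_ent' ρ σ ψ hR]
    exact Subalgebra.sum_mem _ fun l _ => Subalgebra.smul_mem _ (hR.2 _ _) _

/-- the product of two points -/
def prod (φ ψ : bigAlg ρ σ →ₐ[E] E) : bigAlg ρ σ →ₐ[E] E :=
  φ.comp ((Psi ρ σ ψ).codRestrict (bigAlg ρ σ) (Psi_mem ρ σ ψ))

theorem prod_ent (φ ψ : bigAlg ρ σ →ₐ[E] E) {k : ℕ} {τ : MRep Γ E k} (hτ : Has (bigAlg ρ σ) τ)
    (i j : Fin k) (h : ent τ i j ∈ bigAlg ρ σ) :
    prod ρ σ φ ψ ⟨ent τ i j, h⟩ =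
      ∑ l, φ ⟨ent τ i l, hτ.1 i l⟩ * ψ ⟨ent τ l j, hτ.1 l j⟩ := by
  have : (Psi ρ σ ψ).codRestrict (bigAlg ρ σ) (Psi_mem ρ σ ψ) ⟨ent τ i j, h⟩ =
      ∑ l, (ψ ⟨ent τ l j, hτ.1 l j⟩) • (⟨ent τ i l, hτ.1 i l⟩ : bigAlg ρ σ) := by
    apply Subtype.ext
    push_cast
    exact Psi_ent ρ σ ψ hτ i j h
  change φ ((Psi ρ σ ψ).codRestrict (bigAlg ρ σ) (Psi_mem ρ σ ψ) ⟨ent τ i j, h⟩) = _
  rw [this, map_sum]
  simp only [map_smul, smul_eq_mul]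
  exact Finset.sum_congr rfl fun l _ => mul_comm _ _

theorem pre_inv_ent {k : ℕ} (τ : MRep Γ E k) (i j : Fin k) :
    pre E (fun h : Γ => h⁻¹) (ent τ i j) = ent' τ i j := rfl

theorem pre_inv_ent' {k : ℕ} (τ : MRep Γ E k) (i j : Fin k) :
    pre E (fun h : Γ => h⁻¹) (ent' τ i j) = ent τ i j := by
  funext h
  rw [pre_apply]
  simp [ent, ent']

theorem inv_mem' (f : bigAlg ρ σ) :
    ((pre E (fun h : Γ => h⁻¹)).comp (bigAlg ρ σ).val) f ∈ bigAlg ρ σ := by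
  refine gen_ind (big_eq ρ σ) _ ?_ f
  intro s hs hsA
  change pre E (fun h : Γ => h⁻¹) s ∈ bigAlg ρ σ
  have hL := has_left ρ σ
  have hR := has_right ρ σ
  rcases hs with hs | hs <;> rcases gens_cases hs with ⟨i, j, rfl⟩ | ⟨i, j, rfl⟩
  · rw [pre_inv_ent]; exact hL.2 _ _
  · rw [pre_inv_ent']; exact hL.1 _ _
  · rw [pre_inv_ent]; exact hR.2 _ _
  · rw [pre_inv_ent']; exact hR.1 _ _

/-- the antipode -/
def iot : bigAlg ρ σ →ₐ[E] bigAlg ρ σ :=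
  ((pre E (fun h : Γ => h⁻¹)).comp (bigAlg ρ σ).val).codRestrict (bigAlg ρ σ) (inv_mem' ρ σ)

theorem iot_ent (φ : bigAlg ρ σ →ₐ[E] E) {k : ℕ} {τ : MRep Γ E k} (hτ : Has (bigAlg ρ σ) τ)
    (i j : Fin k) (h : ent τ i j ∈ bigAlg ρ σ) :
    φ (iot ρ σ ⟨ent τ i j, h⟩) = φ ⟨ent' τ i j, hτ.2 i j⟩ := rfl

theorem sum_ent_ent' (φ : bigAlg ρ σ →ₐ[E] E) {k : ℕ} {τ : MRep Γ E k}
    (hτ : Has (bigAlg ρ σ) τ) (i j : Fin k) :
    ∑ l, φ ⟨ent τ i l, hτ.1 i l⟩ * φ ⟨ent' τ l j, hτ.2 l j⟩ = (1 : Matrix (Fin k) (Fin k) E) i j := by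
  have h1 : (∑ l, (⟨ent τ i l, hτ.1 i l⟩ : bigAlg ρ σ) * ⟨ent' τ l j, hτ.2 l j⟩) =
      algebraMap E (bigAlg ρ σ) ((1 : Matrix (Fin k) (Fin k) E) i j) := by
    apply Subtype.ext
    push_cast
    funext g
    have : (τ g * τ g⁻¹) i j = (1 : Matrix (Fin k) (Fin k) E) i j := by
      rw [← map_mul, mul_inv_cancel, map_one]
    rw [Matrix.mul_apply] at this
    simpa [ent, ent'] using this
  have h2 := congrArg φ h1
  rw [map_sum, AlgHom.commutes] at h2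
  simp only [map_mul] at h2
  exact h2

end main

/-- The piece PT. -/
theorem t_PT : S_PT := by
  intro Γ _ E _ n m ρ σ
  have hL := has_left ρ σ
  have hR := has_right ρ σ
  refine ⟨?_, ?_, ?_⟩
  · intro g
    exact ⟨(Pi.evalAlgHom E (fun _ : Γ => E) g).comp (bigAlg ρ σ).val, fun i j h => rfl,
      fun i j h => rfl⟩
  · rintro x y x' y' ⟨φ, h1, h2⟩ ⟨ψ, h3, h4⟩
    refine ⟨prod ρ σ φ ψ, ?_, ?_⟩
    · intro i j h
      rw [prod_ent ρ σ φ ψ hL, Matrix.mul_apply]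
      exact Finset.sum_congr rfl fun l _ => by rw [h1, h3]
    · intro i j h
      rw [prod_ent ρ σ φ ψ hR, Matrix.mul_apply]
      exact Finset.sum_congr rfl fun l _ => by rw [h2, h4]
  · rintro x y ⟨φ, h1, h2⟩
    refine ⟨fun i j => φ ⟨ent' ρ i j, hL.2 i j⟩, fun i j => φ ⟨ent' σ i j, hR.2 i j⟩, ?_, ?_,
      φ.comp (iot ρ σ), fun i j h => rfl, fun i j h => rfl⟩
    · ext i j
      rw [← sum_ent_ent' ρ σ φ hL i j, Matrix.mul_apply]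
      exact Finset.sum_congr rfl fun l _ => by rw [← h1]
    · ext i j
      rw [← sum_ent_ent' ρ σ φ hR i j, Matrix.mul_apply]
      exact Finset.sum_congr rfl fun l _ => by rw [← h2]

end Run7.h300.GO
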